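import Pool.Agent.H73.SOS.Range

/-!
# Sums of squares with many real roots: the exponent 6/5

**Theorem.** For every `S ≥ 1` there is a nonzero real polynomial `f = ∑ c i * f i ^ 2` with support-sum
`∑ |f i|₀ ≤ S` and with at least `S ^ (6/5) / 470016` distinct real roots. More precisely, for `s ≥ 2`,
`T ≥ 4` and every `q` with `q ^ 3 ≤ s`, `q ^ 2 ≤ T` there is a nonzero sum of `s` weighted squares of
polynomials with at most `T` monomials which has at least `s T q / 7344` distinct real roots.

*The proof.*
1. Let `T b` (`b ∈ ι`) be distinct positive reals and `e w` (`w ∈ W`) distinct exponents. If the matrix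
   `(T b ^ e w)` is a product `U V`, then some `∑ z, F z * G z`, where `F z` has the exponents `e w` and
   `G z` has as many monomials as the column `z` of `U` has nonzero entries, has `|ι| (|W| - 1)` distinct
   positive roots (superposition of dilated copies of one polynomial with `|W| - 1` close roots, with
   dominating monomials).
2. Let `Φ = (x - 1) ⋯ (x - N)`. A polynomial of degree `< N ^ 2` is `∑ j < N, g j * Φ ^ j` with
   `deg (g j) < N`. For large `R` every line `y = a + a' x` with `a ≤ 4 N ^ 2`, `a' < 2 N` meets the curve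
   `y = R Φ(x)` in `N` points with abscissae `t > 0`, all different. On the line the bivariate lift
   `∑ g j (x) (y / R) ^ j` is a polynomial of degree `< 2 N` in `x`, so that its value at the point of the
   curve is a combination of its values at the lattice points `(l, a + a' l)`, `l < 2 N`, of the line. This
   factors the matrix `(t ^ w)`, with `8 N ^ 4` rows `t` and `N ^ 2` columns `w`, over `16 N ^ 3` lattice
   points; each lattice point lies on at most `2 N` lines.
3. This gives `16 N ^ 3` products of polynomials with at most `2 N ^ 2` monomials and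
   `8 N ^ 4 (N ^ 2 - 1)` roots. Copies are glued to reach all values of the parameters.
-/

set_option autoImplicit false

namespace Pool.Agent.Results.MP_f72d10_lc.SixFifths

open Polynomial

theorem result :
    (∀ S : ℕ, 1 ≤ S → ∃ (s : ℕ) (c : Fin s → ℝ) (f : Fin s → ℝ[X]),
      (∑ i, C (c i) * f i ^ 2) ≠ 0 ∧ ∑ i, (f i).support.card ≤ S ∧
      (S : ℝ) ^ ((6 : ℝ) / 5) ≤ 470016 * ((∑ i, C (c i) * f i ^ 2).roots.toFinset.card : ℝ)) ∧
    (∀ s T q : ℕ, 2 ≤ s → 4 ≤ T → q ^ 3 ≤ s → q ^ 2 ≤ T →
      ∃ (c : Fin s → ℝ) (f : Fin s → ℝ[X]), (∀ i, (f i).support.card ≤ T) ∧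
        (∑ i, C (c i) * f i ^ 2) ≠ 0 ∧
        s * T * q ≤ 7344 * (∑ i, C (c i) * f i ^ 2).roots.toFinset.card) := by
  refine ⟨?_, fun s T q hs hT h3 h2 => Pool.Agent.H73.SOS.squares s T q hs hT h3 h2⟩
  intro S hS
  obtain ⟨s, c, f, h1, h2, h3⟩ := Pool.Agent.H73.SOS.total S hS
  refine ⟨s, c, f, h1, h2, ?_⟩
  set R := (∑ i, C (c i) * f i ^ 2).roots.toFinset.card
  have h4 : ((S : ℝ) ^ ((6 : ℝ) / 5)) ^ (5 : ℕ) ≤ (470016 * (R : ℝ)) ^ (5 : ℕ) := by
    rw [← Real.rpow_natCast, ← Real.rpow_mul (by positivity)]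
    have h5 : (6 : ℝ) / 5 * ((5 : ℕ) : ℝ) = ((6 : ℕ) : ℝ) := by norm_num
    rw [h5, Real.rpow_natCast]
    exact_mod_cast h3
  exact le_of_pow_le_pow_left₀ (by norm_num) (by positivity) h4

end Pool.Agent.Results.MP_f72d10_lc.SixFifths
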